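import Mathlib

open Filter Finset

namespace Pool.Agent.Results.MP_ae7721_co.Unstable

/-- Proportion of the words of length `n` that lie in `B`. -/
noncomputable def mu {A : Type} [Fintype A] (B : Set (List A)) (n : ℕ) : ℝ :=
  ({w ∈ B | w.length = n}.ncard : ℝ) / (Fintype.card A : ℝ) ^ n

/-- Average of `mu B n` over the interval of `l` lengths starting at `m`. -/
noncomputable def dI {A : Type} [Fintype A] (B : Set (List A)) (m l : ℕ) : ℝ :=
  (∑ n ∈ Ico m (m + l), mu B n) / l

/-- Upper Banach density. -/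
noncomputable def dstar {A : Type} [Fintype A] (B : Set (List A)) : ℝ :=
  limsup (fun p : ℕ × ℕ => dI B p.1 p.2) (atTop ×ˢ atTop)

/-- Odd-occurrence set. -/
def oddOcc {A : Type} [DecidableEq A] (Γ : Finset A) : Set (List A) :=
  {w | Odd (w.countP (· ∈ Γ))}

abbrev A := Bool × Bool

def words : ℕ → Finset (List A)
  | 0 => {[]}
  | n + 1 => (univ ×ˢ words n).map ⟨fun p => p.1 :: p.2, fun _ _ h => Prod.ext
      (List.cons.inj h).1 (List.cons.inj h).2⟩

lemma mem_words (n : ℕ) : ∀ w, w ∈ words n ↔ w.length = n := by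
  induction n with
  | zero => simp [words]
  | succ n ih => rintro (_ | ⟨a, w⟩) <;> simp [words, ih]

noncomputable def T (n : ℕ) (φ : List A → ℝ) : ℝ := ∑ w ∈ words n, φ w

lemma T0 (φ) : T 0 φ = φ [] := by simp [T, words]

lemma Ts (n φ) : T (n + 1) φ = ∑ a, T n fun w => φ (a :: w) := by
  simp [T, words, sum_product]

lemma Tm {n φ ψ} (h : ∀ w : List A, w.length = n → φ w ≤ ψ w) : T n φ ≤ T n ψ :=
  sum_le_sum fun w p => h w ((mem_words n w).1 p)

lemma T1 (n) (c : ℝ) : T n (fun _ => c) = 4 ^ n * c := by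
  induction n with
  | zero => simp [T0]
  | succ n ih => simp [Ts, ih]; ring

lemma Ta (m n) : ∀ φ, T (m + n) φ = T m fun u => T n fun v => φ (u ++ v) := by
  induction m with
  | zero => simp [T0]
  | succ m ih => intro φ; rw [Nat.succ_add]; simp [Ts, ih]

lemma Tr (n φ) : T n (fun w => φ w.reverse) = T n φ :=
  sum_nbij' List.reverse List.reverse (by simp [mem_words]) (by simp [mem_words]) (by simp)
    (by simp) (by simp)

lemma Tc (n a) {φ : List A → ℝ} (h : ∀ w, 0 ≤ φ w) : T n (fun w => φ (a :: w)) ≤ T (n + 1) φ := by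
  rw [Ts]
  exact single_le_sum (f := fun a => T n fun w => φ (a :: w))
    (fun a _ => sum_nonneg fun w _ => h _) (mem_univ a)

open Classical in
lemma mu_eq (B : Set (List A)) (n) : mu B n = T n (fun w => if w ∈ B then 1 else 0) / 4 ^ n := by
  have : {w ∈ B | w.length = n} = ↑((words n).filter (· ∈ B)) := by
    ext w; simp [mem_words, and_comm]
  rw [mu, this, Set.ncard_coe_finset]
  simp [T]

lemma dstar_ge {B : Set (List A)} {c : ℝ} {N : ℕ} (h : ∀ n ≥ N, c ≤ mu B n + mu B (n + 1)) :
    c / 2 ≤ dstar B := by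
  have h1 : ∀ n, mu B n ≤ 1 := fun n => by
    rw [mu_eq, div_le_one (by positivity)]
    refine (Tm fun w _ => ?_).trans (by rw [T1 n 1, mul_one])
    split_ifs <;> norm_num
  have h2 : ∀ m ≥ N, ∀ j : ℕ, j * c ≤ ∑ n ∈ Ico m (m + 2 * j), mu B n := fun m p j => by
    induction j with
    | zero => simp
    | succ j ih =>
      rw [show m + 2 * (j + 1) = m + 2 * j + 1 + 1 by ring, sum_Ico_succ_top (by omega),
        sum_Ico_succ_top (by omega)]
      have := h (m + 2 * j) (by omega)
      push_cast
      linarith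
  refine le_limsup_of_frequently_le ?_ ⟨1, eventually_map.2 (.of_forall fun p => ?_)⟩
  · rw [prod_atTop_atTop_eq, frequently_atTop]
    refine fun p => ⟨(max p.1 N, 2 * (p.2 + 1)), ⟨by simp, by simp; omega⟩, ?_⟩
    have := h2 (max p.1 N) (by simp) (p.2 + 1)
    rw [dI, le_div_iff₀ (by positivity)]
    push_cast at this ⊢
    linarith
  · refine div_le_one_of_le₀ ((sum_le_card_nsmul _ _ 1 fun n _ => h1 n).trans ?_) (by positivity)
    simp

def run : List Bool → ℕ
  | [] => 0
  | b :: w => if b then run w + 1 else 0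

lemma run_le : ∀ w, run w ≤ w.length
  | [] => le_rfl
  | b :: w => by have := run_le w; cases b <;> simp [run, this]

lemma run_app : ∀ x y, run (x ++ y) = if run x = x.length then x.length + run y else run x
  | [], y => by simp [run]
  | b :: x, y => by
    cases b
    · simp [run]
    · simp only [List.cons_append, run, if_true, run_app x y, List.length_cons, add_left_inj]
      split_ifs <;> omega

lemma run_rev : ∀ x, run x = x.length → run x.reverse = x.length
  | [] => fun _ => rfl
  | b :: x => fun h => by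
    cases b
    · simp [run] at h
    · simp only [run, if_true, List.length_cons, add_left_inj] at h
      simp [run_app, run_rev x h, run]

abbrev p (w : List A) := w.map Prod.fst

def g (L : ℕ) : List A → ℕ
  | [] => 0
  | a :: w => g L w + if a.2 ∧ L ≤ run (a.1 :: p w) then 1 else 0

def nw (L : ℕ) : List Bool → ℝ
  | [] => 1
  | b :: w => nw L w * if L ≤ run (b :: w) then 0 else 1

def S (r : ℕ) : Set (List A) := {w | Odd (g (2 * r) w) ∧ run (p w) < r ∧ run (p w).reverse < r}

lemma g_app (r : ℕ) (y) (hy : run (p y) < r) :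
    ∀ x, run (p x).reverse < r → g (2 * r) (x ++ y) = g (2 * r) x + g (2 * r) y
  | [], _ => by simp [g]
  | a :: x, h => by
    have e : p (a :: x) = a.1 :: p x := rfl
    have h1 : run (p x).reverse < r := by
      rw [e, List.reverse_cons, run_app] at h
      split_ifs at h <;> omega
    have h2 : 2 * r ≤ run (a.1 :: p (x ++ y)) ↔ 2 * r ≤ run (a.1 :: p x) := by
      have := run_rev (a.1 :: p x)
      rw [p, List.map_append, ← List.cons_append, run_app]
      rw [e] at h
      split_ifs with q
      · have := this q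
        simp only [p] at *
        omega
      · rfl
    simp only [List.cons_append, g, g_app r y hy x h1, h2]
    ring

lemma sign (L n) : ∀ ψ : List Bool → ℝ, T n (fun w => (-1) ^ g L w * ψ (p w)) =
    T n fun w => nw L (p w) * ψ (p w) := by
  induction n with
  | zero => simp [T0, g, nw]
  | succ n ih =>
    intro ψ
    have : ∀ a : A, T n (fun w => (-1) ^ g L (a :: w) * ψ (p (a :: w))) = T n fun w => nw L (p w) *
        ((if a.2 ∧ L ≤ run (a.1 :: p w) then -1 else 1) * ψ (a.1 :: p w)) := fun a => by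
      rw [← ih fun v => (if a.2 ∧ L ≤ run (a.1 :: v) then -1 else 1) * ψ (a.1 :: v)]
      congr 1
      ext w
      simp only [g, pow_add, List.map_cons]
      split_ifs <;> ring
    simp only [Ts, this]
    unfold T
    rw [sum_comm, sum_comm (s := univ)]
    refine sum_congr rfl fun w _ => ?_
    simp only [Fintype.sum_prod_type, Fintype.sum_bool, List.map_cons, nw]
    simp only [true_and, Bool.false_eq_true, false_and, if_false]
    split_ifs <;> ring

lemma start (r : ℕ) : ∀ n, T n (fun w => if r ≤ run (p w) then 1 else 0) ≤ 4 ^ n / 2 ^ r := by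
  induction r with
  | zero => simp [T1]
  | succ r ih =>
    rintro (_ | n)
    · simp [T0, run]
    · have := ih n
      simp only [Ts, Fintype.sum_prod_type, Fintype.sum_bool, List.map_cons, run]
      simp [T1]
      rw [pow_succ, pow_succ, show (4 : ℝ) ^ n * 4 / (2 ^ r * 2) = 2 * (4 ^ n / 2 ^ r) by
        field_simp; ring]
      linarith

lemma nw01 (L) : ∀ w, 0 ≤ nw L w ∧ nw L w ≤ 1
  | [] => by simp [nw]
  | b :: w => by have := nw01 L w; rw [nw]; split_ifs <;> simp [this]

lemma nw_app (L v) : ∀ u, nw L (u ++ v) ≤ nw L v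
  | [] => le_rfl
  | b :: u => by
    have := nw_app L v u
    have := (nw01 L v).1
    rw [List.cons_append, nw]; split_ifs <;> simpa

lemma decay (L k n : ℕ) : T ((L + 1) * k + n) (fun w => nw (L + 1) (p w)) ≤
    (1 - 1 / 4 ^ (L + 1)) ^ k * 4 ^ ((L + 1) * k + n) := by
  induction k with
  | zero => simpa [T1] using (Tm fun w _ => (nw01 (L + 1) (p w)).2).trans (T1 n 1).le
  | succ k ih =>
    rw [show (L + 1) * (k + 1) + n = (L + 1) + ((L + 1) * k + n) by ring, Ta]
    set N := (L + 1) * k + n
    set C := (1 - 1 / 4 ^ (L + 1) : ℝ) ^ k * 4 ^ N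
    let z : List A := List.replicate (L + 1) (true, true)
    have hz : z ∈ words (L + 1) := by simp [mem_words, z]
    have rz : ∀ m, run (List.replicate m true) = m := fun m => by
      induction m <;> simp_all [List.replicate_succ, run]
    calc _ ≤ T (L + 1) fun u => C - if u = z then C else 0 := by
          refine Tm fun u _ => ?_
          split_ifs with e
          · refine (Tm (ψ := fun _ => 0) fun v _ => ?_).trans (by simp [T1])
            have := rz (L + 1)
            have h := run_app (List.replicate (L + 1) true) (p v)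
            simp only [e, z, p, List.map_append, List.map_replicate]
            rw [List.replicate_succ, List.cons_append] at *
            rw [nw, if_pos (by rw [h, this]; simp), mul_zero]
          · refine (Tm fun v _ => ?_).trans (ih.trans (by simp))
            rw [p, List.map_append]
            exact nw_app _ _ _
      _ = _ := by
          have := T1 (L + 1) C
          unfold T at *
          rw [sum_sub_distrib, this, sum_ite_eq', if_pos hz, pow_add _ _ N, pow_succ _ k]
          simp only [C]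
          generalize (1 - 1 / 4 ^ (L + 1) : ℝ) ^ k = t
          field_simp

lemma muS (r k n : ℕ) (h : (2 * r + 2) * k ≤ n) :
    1 / 2 - (1 - 1 / 4 ^ (2 * r + 2) : ℝ) ^ k / 2 - 2 / 2 ^ (r + 1) ≤ mu (S (r + 1)) n := by
  obtain ⟨m, rfl⟩ := Nat.exists_eq_add_of_le h
  have a := decay (2 * r + 1) k m
  have b := sign (2 * r + 2) ((2 * r + 2) * k + m) fun _ => 1
  rw [show 2 * r + 1 + 1 = 2 * r + 2 by ring] at a
  set n := (2 * r + 2) * k + m
  have c := start (r + 1) n
  have d := c
  rw [← Tr] at d
  have e := T1 n (1 / 2)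
  rw [mu_eq, le_div_iff₀ (by positivity)]
  refine le_trans ?_ (Tm (φ := fun w => 1 / 2 - (-1) ^ g (2 * r + 2) w / 2 -
    (if r + 1 ≤ run (p w) then 1 else 0) - if r + 1 ≤ run (p w.reverse) then 1 else 0) fun w _ => ?_)
  · unfold T at *
    simp only [mul_one] at b
    simp only [sum_sub_distrib, ← sum_div]
    rw [← sum_div] at e
    rw [show ∀ x y z : ℝ, (x - 2 / y) * z = x * z - 2 * (z / y) from fun x y z => by ring]
    linarith
  · have q : p w.reverse = (p w).reverse := List.map_reverse
    simp only [S, Set.mem_ofPred_eq, q, show 2 * (r + 1) = 2 * r + 2 by ring, ← not_le]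
    rcases Nat.even_or_odd (g (2 * r + 2) w) with o | o
    · rw [o.neg_one_pow]; split_ifs <;> norm_num
    · rw [o.neg_one_pow]; split_ifs <;> simp_all <;> norm_num

lemma ext (r : ℕ) {w} (h : w ∈ S (r + 1)) (a : A) : (false, false) :: (false, false) :: w ∈ S (r + 1) ∧
    (false, false) :: a :: (false, false) :: w ∈ S (r + 1) := by
  obtain ⟨h1, h2, h3⟩ := h
  have k : ∀ v, run ((p w).reverse ++ false :: v) < r + 1 := fun v => by
    rw [run_app]; split_ifs <;> simp_all [run]
  refine ⟨⟨by simpa [g] using h1, by simp [run], by simpa using k _⟩, ?_, by simp [run],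
    by simpa using k _⟩
  have : ¬ 2 * (r + 1) ≤ if a.1 = true then 1 else 0 := by split_ifs <;> omega
  simpa [g, run, this] using h1

lemma muD (r n) {Γ : Finset A} (hΓ : Γ.Nonempty) : mu (S (r + 1)) n / 64 ≤
    mu (S (r + 1) \ oddOcc Γ) (n + 2) + mu (S (r + 1) \ oddOcc Γ) (n + 2 + 1) := by
  obtain ⟨a, ha⟩ := hΓ
  simp only [mu_eq]
  let φ : List A → ℝ := fun w => @ite _ (w ∈ S (r + 1) \ oddOcc Γ) (Classical.propDecidable _) 1 0
  have h0 : ∀ w, 0 ≤ φ w := fun w => by simp only [φ]; split_ifs <;> norm_num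
  let f : A := (false, false)
  have a1 := (Tc n f fun w => h0 (f :: w)).trans (Tc (n + 1) f h0)
  have a2 := ((Tc n f fun w => h0 (f :: a :: w)).trans (Tc (n + 1) a fun w => h0 (f :: w))).trans
    (Tc (n + 2) f h0)
  have a3 : T n (fun w => @ite _ (w ∈ S (r + 1)) (Classical.propDecidable _) 1 0) ≤
      T n fun w => φ (f :: f :: w) + φ (f :: a :: f :: w) := Tm fun w _ => by
    split_ifs with q
    · obtain ⟨u, v⟩ := ext r q a
      simp only [φ, Set.mem_sdiff, u, v, f, oddOcc, Set.mem_ofPred_eq, List.countP_cons, ha]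
      by_cases (false, false) ∈ Γ <;> by_cases Odd (w.countP (· ∈ Γ)) <;>
        simp [*, parity_simps, ← Nat.not_odd_iff_even]
    · exact add_nonneg (h0 _) (h0 _)
  have a4 : 0 ≤ T (n + 2) φ := sum_nonneg fun w _ => h0 w
  have a5 : (T n fun w => φ (f :: f :: w) + φ (f :: a :: f :: w)) =
      (T n fun w => φ (f :: f :: w)) + T n fun w => φ (f :: a :: f :: w) := sum_add_distrib
  rw [show ∀ x y : ℝ, x / 4 ^ (n + 2) + y / 4 ^ (n + 2 + 1) = (4 * x + y) / 4 ^ n / 64 from
    fun x y => by field_simp; ring]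
  gcongr
  linarith

theorem result : ∃ δ > (0 : ℝ), ∀ ε > (0 : ℝ), ∃ S : Set (List (Bool × Bool)), [] ∉ S ∧
    (∀ x ∈ S, ∀ y ∈ S, x ++ y ∉ S) ∧ 1 / 2 - ε < dstar S ∧
    ∀ Γ : Finset (Bool × Bool), Γ.Nonempty → δ ≤ dstar (S \ oddOcc Γ) := by
  refine ⟨1 / 512, by norm_num, fun ε hε => ?_⟩
  have hη : 0 < min ε (1 / 4) / 3 := by positivity
  obtain ⟨r, hr⟩ := exists_pow_lt_of_lt_one hη (by norm_num : (1 / 2 : ℝ) < 1)
  obtain ⟨k, hk⟩ := exists_pow_lt_of_lt_one hη
    (sub_lt_self 1 (by positivity) : (1 - 1 / 4 ^ (2 * r + 2) : ℝ) < 1)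
  have H : ∀ n ≥ (2 * r + 2) * k, 1 / 2 - min ε (1 / 4) / 2 ≤ mu (S (r + 1)) n := fun n h => by
    have := muS r k n h
    rw [show (2 : ℝ) / 2 ^ (r + 1) = (1 / 2) ^ r by rw [pow_succ, one_div_pow]; field_simp] at this
    linarith
  have m1 := min_le_left ε (1 / 4)
  have m2 := min_le_right ε (1 / 4)
  refine ⟨S (r + 1), by simp [S, g], fun x hx y hy h => ?_, ?_, fun Γ hΓ => ?_⟩
  · have := h.1
    rw [g_app _ y hy.2.1 x hx.2.2] at this
    exact Nat.not_odd_iff_even.2 (hx.1.add_odd hy.1) this
  · have := dstar_ge (c := 1 - ε) fun n h => by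
      linarith [H n h, H (n + 1) (by omega)]
    linarith
  · have := dstar_ge (c := 1 / 256) (N := (2 * r + 2) * k + 2) (B := S (r + 1) \ oddOcc Γ)
      fun n h => by
        obtain ⟨m, rfl⟩ : ∃ m, n = m + 2 := ⟨n - 2, by omega⟩
        linarith [muD r m hΓ, H m (by omega)]
    linarith

end Pool.Agent.Results.MP_ae7721_co.Unstable
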